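import Mathlib

/-!
# A subgroup-closed class that satisfies the condition on maximal normal subgroups but not the
congruences
-/

namespace Pool.Agent.Results.MP_b62331_al.ConverseFails

/-! ## Definitions used in the statement -/

/-- A class of finite groups closed under isomorphisms and subgroups. -/
structure SubgroupClosed (X : ∀ (G : Type) [Group G], Prop) : Prop where
  finite : ∀ (G : Type) [Group G], X G → Finite G
  iso : ∀ (G H : Type) [Group G] [Group H], Nonempty (G ≃* H) → X G → X H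
  sub : ∀ (G : Type) [Group G] (H : Subgroup G), X G → X H

/-- `K` is a maximal `X`-subgroup of `G`. -/
def IsMaxX (X : ∀ (G : Type) [Group G], Prop) {G : Type} [Group G] (K : Subgroup G) : Prop :=
  X K ∧ ∀ L : Subgroup G, X L → K ≤ L → L = K

/-- `K` is a maximal normal `X`-subgroup of `G`. -/
def IsMaxNormX (X : ∀ (G : Type) [Group G], Prop) {G : Type} [Group G] (K : Subgroup G) : Prop :=
  K.Normal ∧ X K ∧ ∀ L : Subgroup G, L.Normal → X L → K ≤ L → L = K

/-- `𝔞_G(H)`: the number of `X`-subgroups `K > H` with `|K : H| = p`. -/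
noncomputable def aX (X : ∀ (G : Type) [Group G], Prop) (p : ℕ) {G : Type} [Group G]
    (H : Subgroup G) : ℕ :=
  Nat.card {K : Subgroup G // H < K ∧ X K ∧ H.relIndex K = p}

/-- `𝔟_G(H)`: the number of maximal `X`-subgroups that contain `H`. -/
noncomputable def bX (X : ∀ (G : Type) [Group G], Prop) {G : Type} [Group G]
    (H : Subgroup G) : ℕ :=
  Nat.card {K : Subgroup G // IsMaxX X K ∧ H ≤ K}

/-- `𝔠_{k,G}(H)`: the number of `X`-subgroups of order `p ^ k` that contain `H`. -/
noncomputable def cX (X : ∀ (G : Type) [Group G], Prop) (p k : ℕ) {G : Type} [Group G]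
    (H : Subgroup G) : ℕ :=
  Nat.card {K : Subgroup G // H ≤ K ∧ X K ∧ Nat.card K = p ^ k}

/-- `sup_G(H)`: the least order of a maximal `X`-subgroup that contains `H`. -/
noncomputable def supX (X : ∀ (G : Type) [Group G], Prop) {G : Type} [Group G]
    (H : Subgroup G) : ℕ :=
  sInf {n : ℕ | ∃ K : Subgroup G, IsMaxX X K ∧ H ≤ K ∧ Nat.card K = n}

/-- condition (A) for the group `G` -/
def CondA (X : ∀ (G : Type) [Group G], Prop) (p : ℕ) (G : Type) [Group G] : Prop :=
  ∀ H : Subgroup G, X H → aX X p H = 0 ∨ aX X p H ≡ 1 [MOD p]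

/-- condition (B) for the group `G` -/
def CondB (X : ∀ (G : Type) [Group G], Prop) (p : ℕ) (G : Type) [Group G] : Prop :=
  ∀ H : Subgroup G, X H → bX X H ≡ 1 [MOD p]

/-- condition (C) for the group `G` -/
def CondC (X : ∀ (G : Type) [Group G], Prop) (p : ℕ) (G : Type) [Group G] : Prop :=
  ∀ H : Subgroup G, X H → ∀ k : ℕ, Nat.card H ≤ p ^ k → p ^ k ≤ supX X H →
    cX X p k H ≡ 1 [MOD p]

/-- The class: the groups of order dividing `p ^ 3` in which any two elements `x`, `y` with
`x ^ p = 1` and `y ^ p = 1` commute. -/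
def Cls (p : ℕ) (G : Type) [Group G] : Prop :=
  Finite G ∧ Nat.card G ∣ p ^ 3 ∧ ∀ x y : G, x ^ p = 1 → y ^ p = 1 → x * y = y * x

theorem cls_closed (p : ℕ) : SubgroupClosed (fun G _ => Cls p G) where
  finite := fun G _ h => h.1
  iso := by
    rintro G H _ _ ⟨e⟩ ⟨h1, h2, h3⟩
    refine ⟨Finite.of_equiv _ e.toEquiv, ?_, ?_⟩
    · rw [← Nat.card_congr e.toEquiv]; exact h2
    · intro x y hx hy
      have := h3 (e.symm x) (e.symm y) (by rw [← map_pow, hx, map_one])
        (by rw [← map_pow, hy, map_one])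
      rw [← map_mul, ← map_mul] at this
      exact e.symm.injective this
  sub := by
    rintro G _ H ⟨h1, h2, h3⟩
    refine ⟨inferInstance, (Subgroup.card_subgroup_dvd_card H).trans h2, ?_⟩
    intro x y hx hy
    apply Subtype.ext
    exact h3 x y (by rw [← Subgroup.coe_pow, hx, Subgroup.coe_one])
      (by rw [← Subgroup.coe_pow, hy, Subgroup.coe_one])

/-! ## The condition on maximal normal subgroups -/

section one

variable {p : ℕ} [Fact p.Prime] {G : Type} [Group G] [Finite G]

theorem meets_center (hG : IsPGroup p G) (N : Subgroup G) [N.Normal] (hN : N ≠ ⊥) :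
    ∃ c ∈ N, c ∈ Subgroup.center G ∧ c ≠ 1 := by
  have hd : p ∣ Nat.card N := by
    have hNp : IsPGroup p N := hG.to_subgroup N
    have : Nontrivial N := (Subgroup.nontrivial_iff_ne_bot N).mpr hN
    obtain ⟨n, hn0, hn⟩ := hNp.nontrivial_iff_card.mp inferInstance
    exact hn.symm ▸ dvd_pow_self _ (ne_of_gt hn0)
  have h1 : (1 : N) ∈ MulAction.fixedPoints (ConjAct G) N := by
    intro g
    simp
  obtain ⟨b, hb, hb1⟩ := (hG.of_equiv ConjAct.toConjAct).exists_fixed_point_of_prime_dvd_card_of_fixed_point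
    N hd h1
  refine ⟨b, b.2, ?_, ?_⟩
  · rw [Subgroup.mem_center_iff]
    intro g
    have := hb (ConjAct.toConjAct g)
    have h2 := congrArg Subtype.val this
    rw [ConjAct.Subgroup.val_conj_smul, ConjAct.toConjAct_smul] at h2
    rw [mul_inv_eq_iff_eq_mul] at h2
    exact h2
  · intro h
    apply hb1
    apply Subtype.ext
    rw [h]
    rfl

theorem next (hG : IsPGroup p G) (H M : Subgroup G) [H.Normal] [M.Normal] (hHM : H < M) :
    ∃ c ∈ M, (∀ g : G, g * c * g⁻¹ * c⁻¹ ∈ H) ∧ ∃ N : Subgroup G, N.Normal ∧ H < N ∧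
      Nat.card N = p * Nat.card H ∧ ∀ x ∈ N, ∃ h ∈ H, ∃ k : ℤ, x = c ^ k * h := by
  have hQ : IsPGroup p (G ⧸ H) := hG.to_quotient H
  have hMn : (M.map (QuotientGroup.mk' H)).Normal :=
    Subgroup.Normal.map inferInstance _ (QuotientGroup.mk'_surjective H)
  have hne : M.map (QuotientGroup.mk' H) ≠ ⊥ := by
    intro h
    rw [Subgroup.map_eq_bot_iff, QuotientGroup.ker_mk'] at h
    exact absurd h (not_le_of_gt hHM)
  obtain ⟨c0, hc0, hc0z, hc01⟩ := meets_center hQ _ hne
  -- an element of order p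
  obtain ⟨c1, hc1, hc1z, hc1o⟩ : ∃ c1 ∈ M.map (QuotientGroup.mk' H),
      c1 ∈ Subgroup.center (G ⧸ H) ∧ orderOf c1 = p := by
    obtain ⟨k, hk⟩ := (IsPGroup.iff_orderOf.mp hQ) c0
    have hk0 : k ≠ 0 := by
      rintro rfl
      rw [pow_zero, orderOf_eq_one_iff] at hk
      exact hc01 hk
    refine ⟨c0 ^ p ^ (k - 1), Subgroup.pow_mem _ hc0 _, Subgroup.pow_mem _ hc0z _, ?_⟩
    have hp := (Fact.out : p.Prime)
    rw [orderOf_pow_of_dvd (pow_ne_zero _ hp.ne_zero) (by rw [hk]; exact pow_dvd_pow _ (by omega)),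
      hk]
    rw [Nat.pow_div (by omega) hp.pos]
    rw [show k - (k - 1) = 1 by omega, pow_one]
  obtain ⟨c, hcM, rfl⟩ := hc1
  refine ⟨c, hcM, ?_, (Subgroup.zpowers (QuotientGroup.mk' H c)).comap (QuotientGroup.mk' H), ?_,
    ?_, ?_, ?_⟩
  · intro g
    rw [← QuotientGroup.eq_one_iff]
    change QuotientGroup.mk' H (g * c * g⁻¹ * c⁻¹) = 1
    rw [Subgroup.mem_center_iff] at hc1z
    rw [map_mul, map_mul, map_mul, map_inv, map_inv, hc1z, mul_inv_cancel_right, mul_inv_cancel]
  · have : (Subgroup.zpowers (QuotientGroup.mk' H c)).Normal := by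
      refine ⟨fun n hn g => ?_⟩
      have hnz : n ∈ Subgroup.center (G ⧸ H) := by
        have : Subgroup.zpowers (QuotientGroup.mk' H c) ≤ Subgroup.center (G ⧸ H) := by
          rw [Subgroup.zpowers_le]; exact hc1z
        exact this hn
      rw [Subgroup.mem_center_iff] at hnz
      rw [hnz g, mul_inv_cancel_right]
      exact hn
    exact this.comap _
  · have hle : H ≤ (Subgroup.zpowers (QuotientGroup.mk' H c)).comap (QuotientGroup.mk' H) := by
      intro x hx
      have h1 : QuotientGroup.mk' H x = 1 := (QuotientGroup.eq_one_iff x).mpr hx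
      rw [Subgroup.mem_comap, h1]
      exact Subgroup.one_mem _
    refine lt_of_le_of_ne hle ?_
    intro h
    have : c ∈ H := by
      rw [h, Subgroup.mem_comap]
      exact Subgroup.mem_zpowers _
    have h1 : QuotientGroup.mk' H c = 1 := (QuotientGroup.eq_one_iff c).mpr this
    rw [h1, orderOf_one] at hc1o
    exact (Fact.out : p.Prime).one_lt.ne hc1o
  · have h1 : ((Subgroup.zpowers (QuotientGroup.mk' H c)).comap (QuotientGroup.mk' H)).index =
        (Subgroup.zpowers (QuotientGroup.mk' H c)).index :=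
      Subgroup.index_comap_of_surjective _ (QuotientGroup.mk'_surjective H)
    have h2 := Subgroup.card_mul_index
      ((Subgroup.zpowers (QuotientGroup.mk' H c)).comap (QuotientGroup.mk' H))
    have h3 := Subgroup.card_mul_index (Subgroup.zpowers (QuotientGroup.mk' H c))
    have h4 := Subgroup.card_mul_index H
    rw [Nat.card_zpowers, hc1o] at h3
    rw [h1] at h2
    rw [Subgroup.index_eq_card H, ← h3] at h4
    have h5 : 0 < (Subgroup.zpowers (QuotientGroup.mk' H c)).index :=
      Nat.pos_of_ne_zero Subgroup.index_ne_zero_of_finite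
    apply Nat.eq_of_mul_eq_mul_right h5
    rw [h2, ← h4]
    ring
  · intro x hx
    rw [Subgroup.mem_comap, Subgroup.mem_zpowers_iff] at hx
    obtain ⟨k, hk⟩ := hx
    refine ⟨(c ^ k)⁻¹ * x, ?_, k, by group⟩
    rw [← QuotientGroup.eq_one_iff]
    change QuotientGroup.mk' H ((c ^ k)⁻¹ * x) = 1
    rw [map_mul, map_inv, map_zpow, hk, inv_mul_cancel]

omit [Fact p.Prime] in
theorem cls_of_comm {N : Subgroup G} (h1 : Nat.card N ∣ p ^ 3)
    (h2 : ∀ x ∈ N, ∀ y ∈ N, x * y = y * x) : Cls p N :=
  ⟨inferInstance, h1, fun x y _ _ => Subtype.ext (h2 x x.2 y y.2)⟩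

omit [Finite G] in
theorem comm_of_card {N : Subgroup G} {a : ℕ} (ha : a ≤ 2) (h : Nat.card N = p ^ a) :
    ∀ x ∈ N, ∀ y ∈ N, x * y = y * x := by
  have key : ∀ x y : N, x * y = y * x := by
    interval_cases a
    · have : Subsingleton N := (Nat.card_eq_one_iff_unique.mp (by rw [h, pow_zero])).1
      intro x y
      exact Subsingleton.elim _ _
    · have : IsCyclic N := isCyclic_of_prime_card (p := p) (by rw [h, pow_one])
      intro x y
      have := IsCyclic.commGroup (α := N)
      exact (IsCyclic.isMulCommutative (α := N)).is_comm.comm x y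
    · exact (IsPGroup.isMulCommutative_of_card_eq_prime_sq h).is_comm.comm
  intro x hx y hy
  exact congrArg Subtype.val (key ⟨x, hx⟩ ⟨y, hy⟩)

/-- every maximal normal subgroup in the class is a maximal subgroup in the class -/
theorem cond_one (hG : IsPGroup p G) (H : Subgroup G) (hH : IsMaxNormX (fun G _ => Cls p G) H) :
    IsMaxX (fun G _ => Cls p G) H := by
  have hp := (Fact.out : p.Prime)
  obtain ⟨hHn, hHX, hmax⟩ := hH
  refine ⟨hHX, fun K hK hHK => ?_⟩
  by_contra hne
  have hlt : H < K := lt_of_le_of_ne hHK (fun h => hne h.symm)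
  obtain ⟨a, ha3, ha⟩ := (Nat.dvd_prime_pow hp).mp hHX.2.1
  obtain ⟨b, hb3, hb⟩ := (Nat.dvd_prime_pow hp).mp hK.2.1
  have hab : a < b := by
    have h1 : Nat.card H < Nat.card K := by
      by_contra h
      exact hne (Subgroup.eq_of_le_of_card_ge hHK (not_lt.mp h)).symm
    rw [ha, hb] at h1
    exact (Nat.pow_lt_pow_iff_right hp.one_lt).mp h1
  -- there is no normal subgroup in the class above `H`
  have hno : ∀ N : Subgroup G, N.Normal → H < N → ¬ Cls p N := by
    intro N h1 h2 h3
    exact h2.ne (hmax N h1 h3 h2.le).symm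
  rcases Nat.lt_or_ge a 2 with ha2 | ha2
  · have : H < ⊤ := lt_of_lt_of_le hlt le_top
    obtain ⟨c, -, -, N, hN, hHN, hNc, -⟩ := next hG H ⊤ this
    have hNc' : Nat.card N = p ^ (a + 1) := by rw [hNc, ha, pow_succ, mul_comm]
    exact hno N hN hHN (cls_of_comm (by rw [hNc']; exact pow_dvd_pow _ (by omega))
      (comm_of_card (by omega) hNc'))
  · have ha' : a = 2 := by omega
    have hb' : b = 3 := by omega
    subst ha' hb'
    have hHc := comm_of_card le_rfl ha
    have hHC : H ≤ Subgroup.centralizer (H : Set G) := by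
      intro x hx
      rw [Subgroup.mem_centralizer_iff]
      intro y hy
      exact hHc y hy x hx
    rcases hHC.lt_or_eq with hC | hC
    · obtain ⟨c, hcC, -, N, hN, hHN, hNc, hNe⟩ := next hG H _ hC
      rw [Subgroup.mem_centralizer_iff] at hcC
      refine hno N hN hHN (cls_of_comm (by rw [hNc, ha, ← pow_succ']) ?_)
      intro x hx y hy
      obtain ⟨h, hh, k, rfl⟩ := hNe x hx
      obtain ⟨h', hh', l, rfl⟩ := hNe y hy
      have e1 : Commute h (c ^ l) := (show Commute h c from hcC h hh).zpow_right l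
      have e2 : Commute h' (c ^ k) := (show Commute h' c from hcC h' hh').zpow_right k
      have e3 : Commute h h' := hHc h hh h' hh'
      have e4 : Commute (c ^ k) (c ^ l) := (Commute.refl c).zpow_zpow k l
      exact (e4.mul_right e2.symm).mul_left (e1.mul_right e3)
    · -- `H` is its own centraliser
      have hHbot : (⊥ : Subgroup G) < H := by
        rw [bot_lt_iff_ne_bot]
        rintro rfl
        rw [Subgroup.card_bot] at ha
        have := Nat.one_lt_pow (n := 2) (by norm_num) hp.one_lt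
        omega
      obtain ⟨z, hzH, hz, Z0, hZ0n, -, hZ0c, hZ0e⟩ := next hG ⊥ H hHbot
      rw [Subgroup.card_bot, mul_one] at hZ0c
      have hzc : ∀ g, g * z = z * g := by
        intro g
        have := hz g
        rw [Subgroup.mem_bot, mul_inv_eq_one, mul_inv_eq_iff_eq_mul] at this
        exact this
      have hZ0z : ∀ x ∈ Z0, ∀ g, g * x = x * g := by
        intro x hx g
        obtain ⟨h, hh, k, rfl⟩ := hZ0e x hx
        rw [Subgroup.mem_bot] at hh
        subst hh
        rw [mul_one]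
        exact (show Commute g z from hzc g).zpow_right k
      have hZ0H : Z0 ≤ H := by
        intro x hx
        obtain ⟨h, hh, k, rfl⟩ := hZ0e x hx
        rw [Subgroup.mem_bot] at hh
        subst hh
        rw [mul_one]
        exact Subgroup.zpow_mem _ hzH k
      have hZ0lt : Z0 < H := by
        refine lt_of_le_of_ne hZ0H ?_
        rintro rfl
        rw [ha] at hZ0c
        have := Nat.pow_lt_pow_right hp.one_lt (show 1 < 2 by norm_num)
        rw [pow_one] at this
        omega
      obtain ⟨h, hhH, hh, N, hNn, hZN, hNc, hNe⟩ := next hG Z0 H hZ0lt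
      have hNH : N ≤ H := by
        intro x hx
        obtain ⟨h', hh', k, rfl⟩ := hNe x hx
        exact H.mul_mem (H.zpow_mem hhH k) (hZ0H hh')
      have hNeq : N = H := Subgroup.eq_of_le_of_card_ge hNH (by rw [hNc, hZ0c, ha, pow_two])
      -- the centraliser of `h` is `H`
      have hcent : ∀ x, x * h = h * x → x ∈ H := by
        intro x hx
        rw [hC, Subgroup.mem_centralizer_iff]
        intro y hy
        have hy' : y ∈ N := by rw [hNeq]; exact hy
        obtain ⟨h', hh', k, rfl⟩ := hNe y hy'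
        have e1 : Commute x (h ^ k) := (show Commute x h from hx).zpow_right k
        have e2 : Commute x h' := hZ0z h' hh' x
        exact (e1.mul_right e2).symm
      have hcard : Nat.card (G ⧸ H) ≤ Nat.card Z0 := by
        let f : G ⧸ H → Z0 := fun q => ⟨q.out * h * q.out⁻¹ * h⁻¹, hh q.out⟩
        refine Nat.card_le_card_of_injective f ?_
        intro q q' hqq
        have e1 : q.out * h * q.out⁻¹ * h⁻¹ = q'.out * h * q'.out⁻¹ * h⁻¹ :=
          congrArg Subtype.val hqq
        have e2 : q.out * h * q.out⁻¹ = q'.out * h * q'.out⁻¹ := mul_right_cancel e1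
        have e3 : q'.out⁻¹ * q.out ∈ H := by
          apply hcent
          rw [mul_inv_eq_iff_eq_mul] at e2
          rw [mul_assoc, e2]
          group
        rw [← QuotientGroup.out_eq' q, ← QuotientGroup.out_eq' q', eq_comm]
        exact QuotientGroup.eq.mpr e3
      have hGc : Nat.card G ≤ p ^ 3 := by
        rw [Subgroup.card_eq_card_quotient_mul_card_subgroup H, ha]
        calc Nat.card (G ⧸ H) * p ^ 2 ≤ p * p ^ 2 :=
              Nat.mul_le_mul_right _ (hcard.trans hZ0c.le)
          _ = p ^ 3 := by ring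
      have hKtop : K = ⊤ := by
        apply Subgroup.eq_top_of_le_card
        rw [hb]
        exact hGc
      subst hKtop
      exact hno ⊤ inferInstance hlt hK

end one

/-! ## Counting overgroups -/

section count

/-- the kernel of a homomorphism to an additive group -/
def kerW {G A : Type} [Group G] [AddCommGroup A] (W : G → A) (hW : ∀ x y, W (x * y) = W x + W y) :
    Subgroup G :=
  (MonoidHom.mk' (fun x => Multiplicative.ofAdd (W x)) (fun x y => by rw [hW, ofAdd_add])).ker

theorem mem_kerW {G A : Type} [Group G] [AddCommGroup A] {W : G → A}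
    {hW : ∀ x y, W (x * y) = W x + W y} {x : G} : x ∈ kerW W hW ↔ W x = 0 := by
  unfold kerW
  rw [MonoidHom.mem_ker]
  exact Iff.rfl

theorem card_kerW {G A : Type} [Group G] [AddCommGroup A] (W : G → A)
    (hW : ∀ x y, W (x * y) = W x + W y) (hs : Function.Surjective W) :
    Nat.card (kerW W hW) * Nat.card A = Nat.card G := by
  have h := Subgroup.card_mul_index (kerW W hW)
  rw [← h]
  congr 1
  unfold kerW
  rw [Subgroup.index_ker]
  rw [MonoidHom.range_eq_top.mpr (fun y => ?_)]
  · rw [Subgroup.card_top]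
    exact Nat.card_congr Multiplicative.ofAdd
  · obtain ⟨x, hx⟩ := hs (Multiplicative.toAdd y)
    exact ⟨x, by simp [hx]⟩

variable {p : ℕ} [Fact p.Prime] {G : Type} [Group G] [Finite G]

theorem count (hG : Nat.card G = p ^ 4) (U V : G → ZMod p) (hU : ∀ x y, U (x * y) = U x + U y)
    (hV : ∀ x y, V (x * y) = V x + V y) (hs : ∀ s t, ∃ x, U x = s ∧ V x = t)
    (bad : ∃ x y, U x = 0 ∧ U y = 0 ∧ x ^ p = 1 ∧ y ^ p = 1 ∧ x * y ≠ y * x)
    (good : ∀ j : ZMod p, ∀ x y, V x = j * U x → V y = j * U y → x ^ p = 1 → y ^ p = 1 →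
      x * y = y * x) :
    ¬ CondA (fun G _ => Cls p G) p G ∧ ¬ CondB (fun G _ => Cls p G) p G ∧
      ¬ CondC (fun G _ => Cls p G) p G := by
  have hp := (Fact.out : p.Prime)
  have hp0 := hp.pos
  -- the groups
  have hUV : ∀ x y, (fun x => (U x, V x)) (x * y) = (fun x => (U x, V x)) x +
      (fun x => (U x, V x)) y := fun x y => by simp [hU, hV]
  set H : Subgroup G := kerW (fun x => (U x, V x)) hUV with hHdef
  have mH : ∀ x, x ∈ H ↔ U x = 0 ∧ V x = 0 := by
    intro x
    rw [hHdef, mem_kerW, Prod.mk_eq_zero]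
  have hKW : ∀ j : ZMod p, ∀ x y, (fun x => V x - j * U x) (x * y) = (fun x => V x - j * U x) x +
      (fun x => V x - j * U x) y := fun j x y => by simp only [hU, hV]; ring
  set K : ZMod p → Subgroup G := fun j => kerW (fun x => V x - j * U x) (hKW j) with hKdef
  have mK : ∀ j x, x ∈ K j ↔ V x = j * U x := by
    intro j x
    rw [hKdef, mem_kerW, sub_eq_zero]
  have cz : Nat.card (ZMod p) = p := Nat.card_zmod p
  have cH : Nat.card H = p ^ 2 := by
    have := card_kerW (fun x => (U x, V x)) hUV (fun ⟨s, t⟩ => by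
      obtain ⟨x, h1, h2⟩ := hs s t
      exact ⟨x, by simp [h1, h2]⟩)
    rw [Nat.card_prod, cz, hG, ← hHdef] at this
    apply Nat.eq_of_mul_eq_mul_right (show 0 < p * p by positivity)
    rw [this]; ring
  have cK : ∀ j, Nat.card (K j) = p ^ 3 := by
    intro j
    have := card_kerW (fun x => V x - j * U x) (hKW j) (fun t => by
      obtain ⟨x, h1, h2⟩ := hs 0 t
      exact ⟨x, by simp [h1, h2]⟩)
    rw [cz, hG] at this
    apply Nat.eq_of_mul_eq_mul_right hp0
    change Nat.card (kerW (fun x => V x - j * U x) (hKW j)) * p = p ^ 3 * p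
    rw [this]; ring
  have cU : Nat.card (kerW U hU) = p ^ 3 := by
    have := card_kerW U hU (fun t => by
      obtain ⟨x, h1, h2⟩ := hs t 0
      exact ⟨x, h1⟩)
    rw [cz, hG] at this
    apply Nat.eq_of_mul_eq_mul_right hp0
    rw [this]; ring
  have hHK : ∀ j, H ≤ K j := by
    intro j x hx
    rw [mH] at hx
    rw [mK, hx.1, hx.2, mul_zero]
  have p23 : p ^ 2 < p ^ 3 := Nat.pow_lt_pow_right hp.one_lt (by norm_num)
  have hHKlt : ∀ j, H < K j := by
    intro j
    refine lt_of_le_of_ne (hHK j) ?_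
    intro h
    have := cK j
    rw [← h, cH] at this
    omega
  have clsK : ∀ j, Cls p (K j) := by
    intro j
    refine ⟨inferInstance, by rw [cK], ?_⟩
    rintro ⟨x, hx⟩ ⟨y, hy⟩ h1 h2
    rw [mK] at hx hy
    exact Subtype.ext (good j x y hx hy (congrArg Subtype.val h1) (congrArg Subtype.val h2))
  have clsH : Cls p H := by
    refine ⟨inferInstance, by rw [cH]; exact pow_dvd_pow _ (by norm_num), ?_⟩
    rintro ⟨x, hx⟩ ⟨y, hy⟩ h1 h2
    rw [mH] at hx hy
    exact Subtype.ext (good 0 x y (by rw [hx.2, zero_mul]) (by rw [hy.2, zero_mul])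
      (congrArg Subtype.val h1) (congrArg Subtype.val h2))
  -- the overgroups in the class
  have main : ∀ L : Subgroup G, H ≤ L → Cls p L → Nat.card L = p ^ 3 → ∃ j, K j = L := by
    intro L hHL hL cL
    obtain ⟨x0, hx0, hx0U⟩ : ∃ x0 ∈ L, U x0 ≠ 0 := by
      by_contra hcon
      push Not at hcon
      have h1 : L ≤ kerW U hU := fun x hx => mem_kerW.mpr (hcon x hx)
      have h2 : L = kerW U hU := Subgroup.eq_of_le_of_card_ge h1 (by rw [cL, cU])
      obtain ⟨x, y, h3, h4, h5, h6, h7⟩ := bad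
      apply h7
      have hx : x ∈ L := by rw [h2]; exact mem_kerW.mpr h3
      have hy : y ∈ L := by rw [h2]; exact mem_kerW.mpr h4
      exact congrArg Subtype.val (hL.2.2 ⟨x, hx⟩ ⟨y, hy⟩ (Subtype.ext h5) (Subtype.ext h6))
    refine ⟨V x0 / U x0, ?_⟩
    refine Subgroup.eq_of_le_of_card_ge ?_ (by rw [cL, cK])
    intro y hy
    rw [mK] at hy
    have powU : ∀ (x : G) (n : ℕ), U (x ^ n) = n * U x := by
      intro x n
      induction n with
      | zero =>
        have := hU 1 1
        rw [mul_one] at this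
        rw [pow_zero, Nat.cast_zero, zero_mul]
        exact left_eq_add.mp this
      | succ n ih => rw [pow_succ, hU, ih]; push_cast; ring
    have powV : ∀ (x : G) (n : ℕ), V (x ^ n) = n * V x := by
      intro x n
      induction n with
      | zero =>
        have := hV 1 1
        rw [mul_one] at this
        rw [pow_zero, Nat.cast_zero, zero_mul]
        exact left_eq_add.mp this
      | succ n ih => rw [pow_succ, hV, ih]; push_cast; ring
    set n : ℕ := (-(U y / U x0)).val with hn
    have hnc : (n : ZMod p) = -(U y / U x0) := by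
      rw [hn, ZMod.natCast_val, ZMod.cast_id]
    have hmem : y * x0 ^ n ∈ H := by
      rw [mH, hU, hV, powU, powV, hnc, hy]
      constructor <;> field_simp <;> ring
    have := L.mul_mem (hHL hmem) (L.inv_mem (L.pow_mem hx0 n))
    rwa [mul_inv_cancel_right] at this
  have Kinj : Function.Injective K := by
    intro i j hij
    obtain ⟨x, h1, h2⟩ := hs 1 i
    have hx : x ∈ K i := by rw [mK, h1, h2, mul_one]
    rw [hij, mK, h1, h2, mul_one] at hx
    exact hx
  have cnt : ∀ P : Subgroup G → Prop, (∀ L, P L ↔ H ≤ L ∧ Cls p L ∧ Nat.card L = p ^ 3) →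
      Nat.card {L : Subgroup G // P L} = p := by
    intro P hP
    have h1 : ∀ L, P L ↔ L ∈ Set.range K := by
      intro L
      rw [hP]
      constructor
      · rintro ⟨a, b, c⟩
        exact main L a b c
      · rintro ⟨j, rfl⟩
        exact ⟨hHK j, clsK j, cK j⟩
    rw [Nat.card_congr (Equiv.subtypeEquivRight h1)]
    change Nat.card (Set.range K) = p
    rw [Nat.card_range_of_injective Kinj, cz]
  have pmod : ¬ p ≡ 1 [MOD p] := by
    intro h
    have h1 : p % p = 1 % p := h
    rw [Nat.mod_self, Nat.mod_eq_of_lt hp.one_lt] at h1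
    omega
  have le3 : ∀ L : Subgroup G, Cls p L → Nat.card L ≤ p ^ 3 := fun L hL =>
    Nat.le_of_dvd (by positivity) hL.2.1
  have maxL : ∀ L : Subgroup G, IsMaxX (fun G _ => Cls p G) L ∧ H ≤ L ↔
      H ≤ L ∧ Cls p L ∧ Nat.card L = p ^ 3 := by
    intro L
    constructor
    · rintro ⟨⟨h1, h2⟩, h3⟩
      refine ⟨h3, h1, ?_⟩
      have hne : L ≠ H := by
        intro h
        have := h2 (K 0) (clsK 0) (by rw [h]; exact hHK 0)
        rw [h] at this
        exact (hHKlt 0).ne this.symm
      obtain ⟨b, hb, hb'⟩ := (Nat.dvd_prime_pow hp).mp h1.2.1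
      have hlt : Nat.card H < Nat.card L := by
        by_contra hcon
        exact hne (Subgroup.eq_of_le_of_card_ge h3 (not_lt.mp hcon)).symm
      rw [cH, hb'] at hlt
      have := (Nat.pow_lt_pow_iff_right hp.one_lt).mp hlt
      rw [hb', show b = 3 by omega]
    · rintro ⟨h1, h2, h3⟩
      refine ⟨⟨h2, fun M hM hLM => ?_⟩, h1⟩
      exact (Subgroup.eq_of_le_of_card_ge hLM (by rw [h3]; exact le3 M hM)).symm
  refine ⟨?_, ?_, ?_⟩
  · intro h
    have ha : aX (fun G _ => Cls p G) p H = p := by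
      apply cnt
      intro L
      constructor
      · rintro ⟨h1, h2, h3⟩
        refine ⟨h1.le, h2, ?_⟩
        have h4 := Subgroup.relIndex_mul_relIndex ⊥ H L bot_le h1.le
        rw [Subgroup.relIndex_bot_left, Subgroup.relIndex_bot_left, h3, cH] at h4
        rw [← h4]; ring
      · rintro ⟨h1, h2, h3⟩
        have h4 := Subgroup.relIndex_mul_relIndex ⊥ H L bot_le h1
        rw [Subgroup.relIndex_bot_left, Subgroup.relIndex_bot_left, h3, cH] at h4
        refine ⟨lt_of_le_of_ne h1 ?_, h2, ?_⟩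
        · rintro rfl
          rw [cH] at h3
          omega
        · apply Nat.eq_of_mul_eq_mul_left (show 0 < p ^ 2 by positivity)
          rw [h4]; ring
    rcases h H clsH with h1 | h1
    · rw [ha] at h1; omega
    · rw [ha] at h1; exact pmod h1
  · intro h
    have hb : bX (fun G _ => Cls p G) H = p := cnt _ maxL
    have := h H clsH
    rw [hb] at this
    exact pmod this
  · intro h
    have hc : cX (fun G _ => Cls p G) p 3 H = p := cnt _ (fun L => Iff.rfl)
    have hsup : p ^ 3 ≤ supX (fun G _ => Cls p G) H := by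
      unfold supX
      have hmem : p ^ 3 ∈ {n : ℕ | ∃ K : Subgroup G, IsMaxX (fun G _ => Cls p G) K ∧ H ≤ K ∧
          Nat.card K = n} := by
        obtain ⟨h1, h2⟩ := (maxL (K 0)).mpr ⟨hHK 0, clsK 0, cK 0⟩
        exact ⟨K 0, h1, h2, cK 0⟩
      obtain ⟨L, h1, h2, h3⟩ := Nat.sInf_mem ⟨_, hmem⟩
      rw [← h3, ((maxL L).mp ⟨h1, h2⟩).2.2]
    have := h H clsH 3 (by rw [cH]; exact p23.le) hsup
    rw [hc] at this
    exact pmod this

end count

/-! ## The example for `p = 2`: the semidihedral group of order 16 -/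

section two

/-- `1` and `3` as a homomorphism on `ZMod 2` -/
def sg (b : ZMod 2) : ZMod 8 := if b = 0 then 1 else 3

theorem sg_add : ∀ b c : ZMod 2, sg (b + c) = sg b * sg c := by decide

theorem sg_sq : ∀ b : ZMod 2, sg b * sg b = 1 := by decide

/-- the semidihedral group of order 16 -/
def SD : Type := ZMod 8 × ZMod 2

instance : Fintype SD := inferInstanceAs (Fintype (ZMod 8 × ZMod 2))
instance : DecidableEq SD := inferInstanceAs (DecidableEq (ZMod 8 × ZMod 2))

/-- multiplication in `SD` -/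
def SD.mul (x y : SD) : SD := (x.1 + sg x.2 * y.1, x.2 + y.2)

instance : Mul SD := ⟨SD.mul⟩

theorem SD.mul_def (x y : SD) : x * y = (x.1 + sg x.2 * y.1, x.2 + y.2) := rfl

instance : One SD := ⟨((0, 0) : ZMod 8 × ZMod 2)⟩
instance : Inv SD := ⟨fun x => ((-(sg x.2 * x.1), x.2) : ZMod 8 × ZMod 2)⟩

theorem SD.one_def : (1 : SD) = ((0, 0) : ZMod 8 × ZMod 2) := rfl
theorem SD.inv_def (x : SD) : x⁻¹ = ((-(sg x.2 * x.1), x.2) : ZMod 8 × ZMod 2) := rfl

instance : Group SD := Group.ofLeftAxioms
  (by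
    intro x y z
    simp only [SD.mul_def]
    refine Prod.ext ?_ ?_
    · change x.1 + sg x.2 * y.1 + sg (x.2 + y.2) * z.1 = x.1 + sg x.2 * (y.1 + sg y.2 * z.1)
      rw [sg_add]; ring
    · exact add_assoc _ _ _)
  (by
    intro x
    rw [SD.mul_def, SD.one_def]
    refine Prod.ext ?_ ?_
    · change 0 + sg 0 * x.1 = x.1
      rw [show sg 0 = 1 from rfl]; ring
    · exact zero_add _)
  (by
    intro x
    rw [SD.mul_def, SD.inv_def, SD.one_def]
    refine Prod.ext ?_ ?_
    · change -(sg x.2 * x.1) + sg x.2 * x.1 = 0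
      ring
    · change x.2 + x.2 = 0
      revert x
      rintro ⟨a, b⟩
      change b + b = 0
      revert b
      decide)

theorem sd_card : Nat.card SD = 2 ^ 4 := by
  rw [Nat.card_eq_fintype_card]
  rfl

/-- the first coordinate modulo 2 -/
def SD.U (x : SD) : ZMod 2 := ZMod.castHom (show 2 ∣ 8 by norm_num) (ZMod 2) x.1

/-- the second coordinate -/
def SD.V (x : SD) : ZMod 2 := x.2

theorem sd_good : ∀ j : ZMod 2, ∀ x y : SD, SD.V x = j * SD.U x → SD.V y = j * SD.U y →
    x * x = 1 → y * y = 1 → x * y = y * x := by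
  decide

theorem red_sg : ∀ b : ZMod 2, ZMod.castHom (show 2 ∣ 8 by norm_num) (ZMod 2) (sg b) = 1 := by
  decide

/-- a reflection -/
def sdx : SD := ((0, 1) : ZMod 8 × ZMod 2)

/-- another reflection -/
def sdy : SD := ((2, 1) : ZMod 8 × ZMod 2)

theorem sd_bad : SD.U sdx = 0 ∧ SD.U sdy = 0 ∧ sdx * sdx = 1 ∧ sdy * sdy = 1 ∧
    sdx * sdy ≠ sdy * sdx := by
  decide

theorem sd_fails : ¬ CondA (fun G _ => Cls 2 G) 2 SD ∧ ¬ CondB (fun G _ => Cls 2 G) 2 SD ∧
    ¬ CondC (fun G _ => Cls 2 G) 2 SD := by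
  have : Fact (Nat.Prime 2) := ⟨Nat.prime_two⟩
  apply count sd_card SD.U SD.V
  · intro x y
    change ZMod.castHom (show 2 ∣ 8 by norm_num) (ZMod 2) (x.1 + sg x.2 * y.1) = _
    rw [map_add, map_mul]
    rw [red_sg, one_mul]
    rfl
  · intro x y
    rfl
  · intro s t
    refine ⟨((s.val : ZMod 8), t), ?_, rfl⟩
    change ZMod.castHom (show 2 ∣ 8 by norm_num) (ZMod 2) ((s.val : ℕ) : ZMod 8) = s
    rw [map_natCast, ZMod.natCast_val, ZMod.cast_id]
  · obtain ⟨h1, h2, h3, h4, h5⟩ := sd_bad
    exact ⟨sdx, sdy, h1, h2, by rw [pow_two]; exact h3, by rw [pow_two]; exact h4, h5⟩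
  · intro j x y h1 h2 h3 h4
    rw [pow_two] at h3 h4
    exact sd_good j x y h1 h2 h3 h4

end two

/-! ## The example for odd `p` -/

section odd

variable (p : ℕ) [Fact p.Prime]

/-- multiplication by `p` as a homomorphism from `ZMod p` to `ZMod (p ^ 2)` -/
noncomputable def io : ZMod p →+ ZMod (p ^ 2) :=
  ZMod.lift p ⟨(AddMonoidHom.mulLeft (p : ZMod (p ^ 2))).comp (Int.castAddHom (ZMod (p ^ 2))), by
    change (p : ZMod (p ^ 2)) * (((p : ℕ) : ℤ) : ZMod (p ^ 2)) = 0
    have h := ZMod.natCast_self (p ^ 2)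
    push_cast at h ⊢
    rw [← h]; ring⟩

theorem io_int (k : ℤ) : io p (k : ZMod p) = (p : ZMod (p ^ 2)) * (k : ZMod (p ^ 2)) := by
  unfold io
  rw [ZMod.lift_coe]
  rfl

/-- reduction modulo `p` -/
noncomputable def red : ZMod (p ^ 2) →+* ZMod p :=
  ZMod.castHom (dvd_pow_self p two_ne_zero) (ZMod p)

theorem red_io (t : ZMod p) : red p (io p t) = 0 := by
  obtain ⟨k, rfl⟩ := ZMod.intCast_surjective t
  rw [io_int, map_mul, map_natCast, ZMod.natCast_self, zero_mul]

theorem p_mul_io (t : ZMod p) : (p : ZMod (p ^ 2)) * io p t = 0 := by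
  obtain ⟨k, rfl⟩ := ZMod.intCast_surjective t
  have h := ZMod.natCast_self (p ^ 2)
  push_cast at h
  rw [io_int, ← mul_assoc, ← pow_two, h, zero_mul]

theorem red_eq_zero {a : ZMod (p ^ 2)} (h : (p : ZMod (p ^ 2)) * a = 0) : red p a = 0 := by
  obtain ⟨k, rfl⟩ := ZMod.intCast_surjective a
  rw [map_intCast]
  have h1 : (((p * k : ℤ)) : ZMod (p ^ 2)) = 0 := by push_cast; exact h
  rw [ZMod.intCast_zmod_eq_zero_iff_dvd] at h1
  rw [ZMod.intCast_zmod_eq_zero_iff_dvd]
  have hp : (p : ℤ) ≠ 0 := by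
    have := (Fact.out : p.Prime).ne_zero
    exact_mod_cast this
  push_cast at h1
  rw [pow_two] at h1
  exact (mul_dvd_mul_iff_left hp).mp h1

/-- the group of order `p ^ 4` -/
@[ext] structure Q where
  a : ZMod (p ^ 2)
  y : ZMod p
  g : ZMod p

variable {p}

noncomputable instance : Mul (Q p) := ⟨fun x z => ⟨x.a + z.a + io p (x.g * z.y), x.y + z.y, x.g + z.g⟩⟩
noncomputable instance : One (Q p) := ⟨⟨0, 0, 0⟩⟩
noncomputable instance : Inv (Q p) := ⟨fun x => ⟨-x.a + io p (x.g * x.y), -x.y, -x.g⟩⟩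

theorem Q.mul_def (x z : Q p) : x * z = ⟨x.a + z.a + io p (x.g * z.y), x.y + z.y, x.g + z.g⟩ := rfl
theorem Q.one_def : (1 : Q p) = ⟨0, 0, 0⟩ := rfl
theorem Q.inv_def (x : Q p) : x⁻¹ = ⟨-x.a + io p (x.g * x.y), -x.y, -x.g⟩ := rfl

noncomputable instance : Group (Q p) := Group.ofLeftAxioms
  (by
    intro x y z
    simp only [Q.mul_def]
    ext
    · simp only [add_mul, mul_add, map_add]; ring
    · simp only; ring
    · simp only; ring)
  (by
    intro x
    rw [Q.mul_def, Q.one_def]
    ext <;> simp)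
  (by
    intro x
    rw [Q.mul_def, Q.inv_def, Q.one_def]
    ext
    · simp only [neg_mul, map_neg]; ring
    · simp
    · simp)

theorem Q.pow_def (x : Q p) (n : ℕ) :
    x ^ n = ⟨n * x.a + (n.choose 2 : ℕ) * io p (x.g * x.y), n * x.y, n * x.g⟩ := by
  induction n with
  | zero => rw [pow_zero, Q.one_def]; simp
  | succ n ih =>
    rw [pow_succ, ih, Q.mul_def]
    have h : io p ((n : ZMod p) * x.g * x.y) = (n : ZMod (p ^ 2)) * io p (x.g * x.y) := by
      rw [mul_assoc, ← nsmul_eq_mul, map_nsmul, nsmul_eq_mul]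
    ext
    · simp only
      rw [h, Nat.choose_succ_succ' n 1, Nat.choose_one_right]
      push_cast
      ring
    · simp only; push_cast; ring
    · simp only; push_cast; ring

/-- the underlying type as a product -/
def Q.equiv : Q p ≃ ZMod (p ^ 2) × ZMod p × ZMod p where
  toFun x := (x.a, x.y, x.g)
  invFun x := ⟨x.1, x.2.1, x.2.2⟩
  left_inv _ := rfl
  right_inv _ := rfl

instance : Finite (Q p) := by
  have : NeZero (p ^ 2) := ⟨pow_ne_zero _ (Fact.out : p.Prime).ne_zero⟩
  exact Finite.of_equiv _ Q.equiv.symm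

omit [Fact p.Prime] in
theorem q_card : Nat.card (Q p) = p ^ 4 := by
  rw [Nat.card_congr Q.equiv, Nat.card_prod, Nat.card_prod, Nat.card_zmod, Nat.card_zmod]
  ring

theorem q_pow_p (hp2 : p ≠ 2) (x : Q p) : x ^ p = ⟨p * x.a, 0, 0⟩ := by
  have hp := (Fact.out : p.Prime)
  rw [Q.pow_def]
  obtain ⟨m, hm⟩ := hp.dvd_choose_self (k := 2) (by norm_num)
    (lt_of_le_of_ne hp.two_le (Ne.symm hp2))
  ext
  · simp only
    rw [hm]
    push_cast
    rw [mul_assoc, mul_left_comm, p_mul_io, mul_zero, add_zero]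
  · simp
  · simp

theorem q_fails (hp2 : p ≠ 2) : ¬ CondA (fun G _ => Cls p G) p (Q p) ∧
    ¬ CondB (fun G _ => Cls p G) p (Q p) ∧ ¬ CondC (fun G _ => Cls p G) p (Q p) := by
  have hp := (Fact.out : p.Prime)
  apply count q_card (fun x => red p x.a) (fun x => x.g)
  · intro x y
    change red p (x.a + y.a + io p (x.g * y.y)) = _
    rw [map_add, map_add, red_io, add_zero]
  · intro x y
    rfl
  · intro s t
    refine ⟨⟨((s.val : ℕ) : ZMod (p ^ 2)), 0, t⟩, ?_, rfl⟩
    change red p ((s.val : ℕ) : ZMod (p ^ 2)) = s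
    rw [map_natCast, ZMod.natCast_val, ZMod.cast_id]
  · refine ⟨⟨0, 1, 0⟩, ⟨0, 0, 1⟩, map_zero _, map_zero _, ?_, ?_, ?_⟩
    · rw [q_pow_p hp2, Q.one_def, mul_zero]
    · rw [q_pow_p hp2, Q.one_def, mul_zero]
    · intro h
      have h1 := congrArg Q.a h
      change (0 : ZMod (p ^ 2)) + 0 + io p (0 * 0) = 0 + 0 + io p (1 * 1) at h1
      have h2 := io_int p 1
      rw [Int.cast_one, Int.cast_one, mul_one] at h2
      rw [mul_zero, map_zero, mul_one, h2, add_zero, zero_add, zero_add] at h1
      have h3 := (ZMod.natCast_eq_zero_iff p (p ^ 2)).mp h1.symm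
      have h4 := Nat.le_of_dvd hp.pos h3
      have h5 := Nat.pow_lt_pow_right hp.one_lt (show 1 < 2 by norm_num)
      rw [pow_one] at h5
      omega
  · intro j x y hx hy h1 h2
    rw [q_pow_p hp2, Q.one_def] at h1 h2
    have e1 : red p x.a = 0 := red_eq_zero p (congrArg Q.a h1)
    have e2 : red p y.a = 0 := red_eq_zero p (congrArg Q.a h2)
    have hx' : x.g = j * red p x.a := hx
    have hy' : y.g = j * red p y.a := hy
    rw [e1, mul_zero] at hx'
    rw [e2, mul_zero] at hy'
    rw [Q.mul_def, Q.mul_def, hx', hy']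
    ext
    · simp only [zero_mul, map_zero]; ring
    · simp only; ring
    · rfl

end odd

/-- **The converse fails for every prime `p`.**  For the subgroup-closed class `Cls p` every maximal
normal subgroup in the class of every finite `p`-group is a maximal subgroup in the class, but some
group of order `p ^ 4` satisfies none of the congruence conditions (A), (B), (C) for this class. -/
theorem result (p : ℕ) (hp : p.Prime) :
    SubgroupClosed (fun G _ => Cls p G) ∧
    (∀ (G : Type) [Group G], Finite G → IsPGroup p G → ∀ H : Subgroup G,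
      IsMaxNormX (fun G _ => Cls p G) H → IsMaxX (fun G _ => Cls p G) H) ∧
    ∃ (G : Type) (_ : Group G), Nat.card G = p ^ 4 ∧ ¬ CondA (fun G _ => Cls p G) p G ∧
      ¬ CondB (fun G _ => Cls p G) p G ∧ ¬ CondC (fun G _ => Cls p G) p G := by
  have : Fact p.Prime := ⟨hp⟩
  refine ⟨cls_closed p, fun G _ _ hG H hH => cond_one hG H hH, ?_⟩
  by_cases h2 : p = 2
  · subst h2
    exact ⟨SD, inferInstance, sd_card, sd_fails⟩
  · exact ⟨Q p, inferInstance, q_card, q_fails h2⟩

end Pool.Agent.Results.MP_b62331_al.ConverseFails
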